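import Pool.Agent.N236.UR.Stm

/-!
# Project UR (helper236): the exceptional depth of a stage
-/

set_option autoImplicit false

namespace Pool.Agent.N823.UR

open Pool.Agent.N236.UB Pool.Agent.N236.UR

/-- the combinatorial core, for an abstract ultrametric on the integers -/
theorem cle_core (D : ℤ → ℤ → ℝ) (rel : ℤ → ℤ → Prop) (d : ℤ → ℝ)
    (hU : ∀ x y z : ℤ, D x y ≤ max (D x z) (D z y)) (hS : ∀ x y : ℤ, D x y = D y x)
    (hE : Equivalence rel) (hd : ∀ i, 0 < d i)
    (hN : ∀ i j, ¬ rel i j → D i j = d i * d j) (hR : ∀ i j, rel i j → D i j < d i * d j)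
    (a b : ℤ) (hab : ¬ rel a b) (hmin : ∀ i j, ¬ rel i j → D a b ≤ D i j)
    (x u y y' : ℤ) (h1 : D x y < D x u) (h2 : D x y' < D x u) (h3 : ¬ rel x u)
    (h4 : ¬ rel y y') :
    min (D x y) (D x y') ≤ D a b ∧ D a b ≤ max (D x y) (D x y') := by
  have hρ : D a b = d a * d b := hN a b hab
  have hρ0 : 0 < D a b := by rw [hρ]; exact mul_pos (hd a) (hd b)
  have hle : ∀ i j, D i j ≤ d i * d j := by
    intro i j
    by_cases h : rel i j
    · exact (hR i j h).le
    · exact (hN i j h).le
  refine ⟨?_, ?_⟩
  · by_contra hcon
    have hcon' := lt_min_iff.1 (not_le.1 hcon)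
    obtain ⟨h5, h6⟩ := hcon'
    -- points outside of the ball
    have hiso : ∀ t, D a b < D t a → D t b = D t a := by
      intro t ht
      apply le_antisymm
      · refine (hU t b a).trans ?_
        exact max_le le_rfl ht.le
      · have := hU t a b
        rw [hS b a] at this
        rcases le_max_iff.1 this with h | h
        · exact h
        · exact absurd h (not_le.2 ht)
    have hi : ∀ t, D a b < D t a → d a < d t ∧ d b < d t := by
      intro t ht
      have hb := hiso t ht
      have ht' : D a b < D t b := by rw [hb]; exact ht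
      by_cases hta : rel t a
      · have htb : ¬ rel t b := fun h => hab (hE.trans (hE.symm hta) h)
        have e1 : D t b = d t * d b := hN t b htb
        have e2 : D t a < d t * d a := hR t a hta
        have e3 : d t * d b < d t * d a := by rw [← e1, hb]; exact e2
        have e4 : d b < d a := lt_of_mul_lt_mul_left e3 (hd t).le
        have e5 : d a * d b < d t * d b := by rw [← hρ, ← e1]; exact ht'
        have e6 : d a < d t := lt_of_mul_lt_mul_right e5 (hd b).le
        exact ⟨e6, e4.trans e6⟩
      · by_cases htb : rel t b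
        · have e1 : D t a = d t * d a := hN t a hta
          have e2 : D t b < d t * d b := hR t b htb
          have e3 : d t * d a < d t * d b := by rw [← e1, ← hb]; exact e2
          have e4 : d a < d b := lt_of_mul_lt_mul_left e3 (hd t).le
          have e5 : d b * d a < d t * d a := by rw [mul_comm (d b), ← hρ, ← e1]; exact ht
          have e6 : d b < d t := lt_of_mul_lt_mul_right e5 (hd a).le
          exact ⟨e4.trans e6, e6⟩
        · have e1 : D t a = d t * d a := hN t a hta
          have e2 : D t b = d t * d b := hN t b htb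
          constructor
          · have e5 : d a * d b < d t * d b := by rw [← hρ, ← e2]; exact ht'
            exact lt_of_mul_lt_mul_right e5 (hd b).le
          · have e5 : d b * d a < d t * d a := by rw [mul_comm (d b), ← hρ, ← e1]; exact ht
            exact lt_of_mul_lt_mul_right e5 (hd a).le
    have hii : ∀ t t', D a b < D t a → D a b < D t' a → rel t t' := by
      intro t t' ht ht'
      by_contra hn
      have e1 : D t t' = d t * d t' := hN t t' hn
      have e2 := hU t t' a
      rw [hS a t', e1] at e2
      rcases le_max_iff.1 e2 with h | h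
      · have e3 : d t * d t' ≤ d t * d a := h.trans (hle t a)
        have e4 : d t' ≤ d a := le_of_mul_le_mul_left e3 (hd t)
        exact absurd e4 (not_le.2 (hi t' ht').1)
      · have e3 : d t * d t' ≤ d t' * d a := h.trans (hle t' a)
        have e4 : d t ≤ d a := by
          rw [mul_comm (d t)] at e3
          exact le_of_mul_le_mul_left e3 (hd t')
        exact absurd e4 (not_le.2 (hi t ht).1)
    -- x is not in the ball
    have hball : ∀ s t, D s a ≤ D a b → D t a ≤ D a b → D s t ≤ D a b := by
      intro s t hs ht
      refine (hU s t a).trans (max_le hs ?_)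
      rw [hS a t]; exact ht
    have hx : D a b < D x a := by
      by_contra hxa
      have hxa' := not_lt.1 hxa
      have hy1 : D a b < D y a := by
        by_contra h
        exact absurd (hball x y hxa' (not_lt.1 h)) (not_le.2 h5)
      have hy2 : D a b < D y' a := by
        by_contra h
        exact absurd (hball x y' hxa' (not_lt.1 h)) (not_le.2 h6)
      exact h4 (hii y y' hy1 hy2)
    have hu : D u a ≤ D a b := by
      by_contra h
      exact h3 (hii x u hx (not_le.1 h))
    have key : ∀ z, D x z < D x u → D a b < D x z → D a b < D z a := by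
      intro z hz1 hz2
      by_contra h
      have e1 : D u z ≤ D a b := hball u z hu (not_lt.1 h)
      have e2 := hU x u z
      rw [hS z u] at e2
      rcases le_max_iff.1 e2 with h' | h'
      · exact absurd h' (not_le.2 hz1)
      · exact absurd (h'.trans e1) (not_le.2 (hz2.trans hz1))
    exact h4 (hii y y' (key y h1 h5) (key y' h2 h6))
  · by_cases hxy : rel x y
    · have hxy' : ¬ rel x y' := fun h => h4 (hE.trans (hE.symm hxy) h)
      exact (hmin x y' hxy').trans (le_max_right _ _)
    · exact (hmin x y hxy).trans (le_max_left _ _)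

theorem t_cle : S_ULT → S_CLE := by
  intro hULT L _ v p q e n V c rel d hL hn hC hSt
  obtain ⟨hU, hT, hS, hz, hnn⟩ := hULT L v p q e n V c hL hn hC
  obtain ⟨hE, hmod, hd, hdn, hN, hR⟩ := hSt
  by_cases hall : ∀ i j, rel i j
  · exact ⟨0, fun x u y y' _ _ h3 _ => absurd (hall x u) h3⟩
  push Not at hall
  obtain ⟨a0, b0, hab0⟩ := hall
  -- finitely many values
  have hper : ∀ i j : ℤ, dl v V c i (j + n) = dl v V c i j := by
    intro i j
    unfold dl
    rw [hC.1.1 j, hC.2.2.1 j]
  have hperk : ∀ (k : ℤ) (i j : ℤ), dl v V c i (j + k * n) = dl v V c i j := by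
    intro k
    induction k using Int.induction_on with
    | zero => intro i j; simp
    | succ k ih =>
      intro i j
      have : j + ((k : ℤ) + 1) * n = (j + k * n) + n := by ring
      rw [this, hper, ih]
    | pred k ih =>
      intro i j
      have : j + (-(k : ℤ)) * n = (j + (-(k : ℤ) - 1) * n) + n := by ring
      rw [← ih i j, this, hper]
  have hn0 : (0 : ℤ) < n := by exact_mod_cast (by omega : 0 < n)
  have hval : ∀ i j : ℤ, dl v V c i j ∈
      (Finset.range n).image (fun t : ℕ => dl v V c 0 (t : ℤ)) := by
    intro i j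
    rw [Finset.mem_image]
    refine ⟨((j - i) % n).toNat, ?_, ?_⟩
    · rw [Finset.mem_range]
      have := Int.emod_lt_of_pos (j - i) hn0
      have := Int.emod_nonneg (j - i) hn0.ne'
      omega
    · have h1 : (((j - i) % n).toNat : ℤ) = (j - i) % n :=
        Int.toNat_of_nonneg (Int.emod_nonneg (j - i) hn0.ne')
      rw [h1]
      have h2 : j - i = (j - i) % n + (j - i) / n * n := by
        have := Int.emod_add_mul_ediv (j - i) n
        linarith
      have h3 := hperk ((j - i) / n) 0 ((j - i) % n)
      rw [← h2] at h3
      rw [← h3]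
      have h4 := hT 0 (j - i) i
      rw [zero_add, sub_add_cancel] at h4
      exact h4.symm
  classical
  set T : Finset ℝ := ((Finset.range n).image (fun t : ℕ => dl v V c 0 (t : ℤ))).filter
    (fun z => ∃ i j, ¬ rel i j ∧ dl v V c i j = z) with hTdef
  have hTne : T.Nonempty := ⟨dl v V c a0 b0, by
    rw [hTdef, Finset.mem_filter]
    exact ⟨hval a0 b0, a0, b0, hab0, rfl⟩⟩
  obtain ⟨ρ, hρT, hρmin⟩ := T.exists_min_image id hTne
  obtain ⟨a, b, hab, habρ⟩ := (Finset.mem_filter.1 hρT).2
  refine ⟨ρ, fun x u y y' h1 h2 h3 h4 => ?_⟩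
  rw [← habρ]
  refine cle_core (dl v V c) rel d hU hS hE hd hN hR a b hab ?_ x u y y' h1 h2 h3 h4
  intro i j hij
  rw [habρ]
  exact hρmin _ (Finset.mem_filter.2 ⟨hval i j, i, j, hij, rfl⟩)

end Pool.Agent.N823.UR
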