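import Pool.Agent.N236.UR.Stm

/-!
# Project UR (helper236): the bound for the exponents
-/

set_option autoImplicit false

namespace Pool.Agent.N823.UR

open Pool.Agent.N236.UB Pool.Agent.N236.UR

/-- `k` numbers miss one of `k + 1` disjoint closed intervals -/
theorem miss (k : ℕ) (σ : ℕ → ℝ) (hσ : ∀ i, i ≤ 2 * k + 1 → σ i < σ (i + 1)) (ρ : Fin k → ℝ) :
    ∃ i, i ≤ k ∧ ∀ t, ¬ (σ (2 * i) ≤ ρ t ∧ ρ t ≤ σ (2 * i + 1)) := by
  by_contra hcon
  push Not at hcon
  have h1 : ∀ i : Fin (k + 1), ∃ t : Fin k, σ (2 * i) ≤ ρ t ∧ ρ t ≤ σ (2 * i + 1) := fun i =>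
    hcon i (Nat.lt_succ_iff.1 i.2)
  choose f hf using h1
  have hmono : ∀ i j, i ≤ j → j ≤ 2 * k + 2 → σ i ≤ σ j := by
    intro i j hij
    induction j, hij using Nat.le_induction with
    | base => intro _; exact le_rfl
    | succ j hij ih =>
      intro hj
      exact (ih (by omega)).trans (hσ j (by omega)).le
  have key : ∀ i j : Fin (k + 1), i < j → f i ≠ f j := by
    intro i j hij hfij
    have hi := (hf i).2
    have hj := (hf j).1
    rw [hfij] at hi
    have hlt : (i : ℕ) < j := hij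
    have hj2 := j.2
    have e1 : σ (2 * (i : ℕ) + 1) < σ (2 * (i : ℕ) + 1 + 1) := hσ _ (by omega)
    have e2 : σ (2 * (i : ℕ) + 1 + 1) ≤ σ (2 * (j : ℕ)) := hmono _ _ (by omega) (by omega)
    linarith
  have hinj : Function.Injective f := by
    intro i j hij
    rcases lt_trichotomy i j with h | h | h
    · exact absurd hij (key i j h)
    · exact h
    · exact absurd hij.symm (key j i h)
  have := Fintype.card_le_of_injective f hinj
  simp at this

theorem t_comb : S_ULT → S_GROW → S_CLE → S_LEV → S_COMB := by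
  intro _ hG hC hL L _ v p q e n k V c rel d hloc hp hn hF r hr
  obtain ⟨hg1, hg2⟩ := hG L v p q e n V c hloc hn hF.1 r hr
  refine ⟨hg1, fun hrp a ha => ?_⟩
  by_contra hcon
  have hcon' : (2 * k + 2) * q + 1 ≤ a := by omega
  set σ : ℕ → ℝ := fun i => dl v V c 0 ((n / r ^ (1 + i * q) : ℕ) : ℤ) with hσ
  have hdiv : ∀ i, i ≤ 2 * k + 2 → r ^ (1 + i * q) ∣ n := by
    intro i hi
    refine (pow_dvd_pow r ?_).trans ha
    have : i * q ≤ (2 * k + 2) * q := Nat.mul_le_mul_right q hi
    omega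
  have hstep : ∀ i, i ≤ 2 * k + 1 → σ i < σ (i + 1) := by
    intro i hi
    have h1 : 1 + (i + 1) * q = (1 + i * q) + q := by ring
    have h2 := hdiv (i + 1) (by omega)
    rw [h1] at h2
    have h3 := hg2 (1 + i * q) (by omega) h2
    simp only [hσ]
    rw [h1]
    exact h3
  have hq : 0 < q := by
    rcases Nat.eq_zero_or_pos q with h | h
    · have := hstep 0 (by omega)
      simp only [hσ, h, Nat.mul_zero] at this
      exact absurd this (lt_irrefl _)
    · exact h
  have hρ : ∀ t : Fin k, ∃ ρ : ℝ, ∀ x u y y' : ℤ, dl v V c x y < dl v V c x u →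
      dl v V c x y' < dl v V c x u → ¬ rel t x u → ¬ rel t y y' →
      min (dl v V c x y) (dl v V c x y') ≤ ρ ∧ ρ ≤ max (dl v V c x y) (dl v V c x y') :=
    fun t => hC L v p q e n V c (rel t) (d t) hloc hn hF.1 (hF.2.1 t)
  choose ρ hρ using hρ
  obtain ⟨i, hik, hi⟩ := miss k σ hstep ρ
  have hmono : ∀ i j, i < j → j ≤ 2 * k + 2 → σ i < σ j := by
    intro i j hij
    induction j, hij using Nat.le_induction with
    | base => intro h; exact hstep i (by omega)
    | succ j hij ih =>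
      intro hj
      exact (ih (by omega)).trans (hstep j (by omega))
  refine hL L v p q e n k V c rel d hloc hp hn hF r (1 + 2 * i * q) (1 + (2 * i + 1) * q)
    ((n / r ^ (1 + (2 * k + 2) * q) : ℕ) : ℤ) hr hrp (by omega) ?_ (hdiv (2 * i + 1) (by omega))
    (hstep (2 * i) (by omega)) (hmono (2 * i + 1) (2 * k + 2) (by omega) le_rfl) ?_
  · have : (2 * i + 1) * q = 2 * i * q + q := by ring
    omega
  · intro x u' y y' h1 h2 h3 h4 h5 t
    by_contra hn'
    push Not at hn'
    obtain ⟨h6, h7⟩ := hρ t x u' y y' (h2.trans_lt h5) (h4.trans_lt h5) hn'.1 hn'.2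
    exact hi t ⟨(le_min h1 h3).trans h6, h7.trans (max_le h2 h4)⟩

end Pool.Agent.N823.UR
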